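import Pool.Agent.R903.ActTri

/-!
# Murre's conjecture (C) for a single variety and the action of correspondences on Chow groups

Let `X` be a variety of a class `𝒱` of smooth projective varieties over a field `k` which is closed
under products, with Chow groups `C` (rational coefficients) and a Weil cohomology theory `W`.

1. If Murre's conjecture (C) holds for `X`, then for each Chow–Künneth decomposition `π` of `X`, all
   `a < b` and all correspondences `γ` in `CH^(dim X)(X × X)` the correspondence `π b ∘ γ ∘ π a`
   acts as zero on `CH(X)`; that is, `Hom(h^a(X), h^b(X))` acts as zero on `CH(X)`.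
2. Conversely, if this holds for *one* Chow–Künneth decomposition of `X` and the correspondences in
   `CH^(dim X)(X × X)` which act as zero on the cohomology are nilpotent (for example if the motive
   of `X` is finite-dimensional), then (C) holds for `X`.
-/

open Pool.Agent.H914 Pool.Agent.R903

universe u v w

namespace Pool.Agent.Results.MP_10f4af_ag.ActionOnChowGroups

theorem result {k : Type u} [Field k] {𝒱 : VarClass k} {C : ChowTheory.{u, v} 𝒱}
    (W : WeilTheory.{u, v, w} C) (hP : C.Polarized) (X : 𝒱.Obj) (π : ℕ → C.CH (X.prod X))
    (hπ : W.IsCK X π) :
    (W.MurreC X → C.ActsTriangularly π) ∧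
    (W.HomTrivialNilp X → (W.MurreC X ↔ C.ActsTriangularly π)) :=
  ⟨fun h => h.actsTriangularly hP hπ, fun hN =>
    ⟨fun h => h.actsTriangularly hP hπ, fun h => hπ.murreC_of_actsTriangularly h hN⟩⟩

end Pool.Agent.Results.MP_10f4af_ag.ActionOnChowGroups
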