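import Pool.Agent.R903.Murre

/-!
# Murre's conjecture (C) is equivalent to the first half of Murre's conjecture (B)

Let `𝒱` be a class of smooth projective varieties over a field `k` which is closed under products
(for example all of them), with Chow groups `C` (rational coefficients) and a Weil cohomology theory
`W`. The following are equivalent:

1. for all `X` in `𝒱`, all `i` and all `k` the group `F^k CH^i(X)` is the same for all
   Chow–Künneth decompositions of `X`;
2. for all `X` in `𝒱` and all `i` one has `F^0 CH^i(X) = CH^i(X)` for all Chow–Künneth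
   decompositions of `X`;
3. for all `X` in `𝒱` the group `F^0 CH^(dim X)(X × X)` is the same for all Chow–Künneth
   decompositions of `X × X`;
4. for all `X` in `𝒱`, all Chow–Künneth decompositions `π` and `π'` of `X`, all `a < b` and all
   correspondences `γ` of degree zero one has `π' b ∘ γ ∘ π a = 0`.

Moreover, for a single variety `X` and codimension `i`: `F^0 CH^i(X)` is independent of the
Chow–Künneth decomposition of `X` if and only if it is `CH^i(X)` for all of them; and if
`F^0 CH^(dim X)(X × X)` is independent of the Chow–Künneth decomposition of `X × X`, then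
`F^k CH^i(X)` is independent of the Chow–Künneth decomposition of `X`, for all `i` and `k`.
-/

open Pool.Agent.H914 Pool.Agent.R903

universe u v w

namespace Pool.Agent.Results.MP_10f4af_ag.IndependenceIffHalfOfB

theorem result {k : Type u} [Field k] {𝒱 : VarClass k} {C : ChowTheory.{u, v} 𝒱}
    (W : WeilTheory.{u, v, w} C) (hP : C.Polarized) :
    List.TFAE [∀ X : 𝒱.Obj, W.MurreC X,
      ∀ (X : 𝒱.Obj) i, W.MurreB0 X i,
      ∀ X : 𝒱.Obj, W.Indep (X.prod X) X.dim 0,
      ∀ X : 𝒱.Obj, W.Triangular X] ∧
    (∀ (X : 𝒱.Obj) i, W.Indep X i 0 ↔ W.MurreB0 X i) ∧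
    ∀ X : 𝒱.Obj, W.Indep (X.prod X) X.dim 0 → W.MurreC X := by
  have h2 : ∀ (X : 𝒱.Obj) i, W.Indep X i 0 ↔ W.MurreB0 X i := fun X i =>
    ⟨fun h => h.murreB0 hP, fun h π π' hπ hπ' => (h π hπ).trans (h π' hπ').symm⟩
  have h3 : ∀ X : 𝒱.Obj, W.Indep (X.prod X) X.dim 0 → W.Triangular X := fun X h =>
    ((h2 _ _).1 h).triangular
  refine ⟨?_, h2, fun X h => (h3 X h).murreC⟩
  tfae_have 1 → 2 := fun h X i => (h2 X i).1 (h X i 0)
  tfae_have 2 → 3 := fun h X => (h2 _ _).2 (h _ _)
  tfae_have 3 → 4 := fun h X => h3 X (h X)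
  tfae_have 4 → 1 := fun h X => (h X).murreC
  tfae_finish

end Pool.Agent.Results.MP_10f4af_ag.IndependenceIffHalfOfB
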